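import Pool.Agent.Lib.MP_947c47_gt.Mirror.Main

set_option autoImplicit false

open scoped Pointwise

namespace Pool.Agent.Results.MP_947c47_gt.Mirror

/-- If the surface of a convex body in 3-space meets its image under each isometry that is a
reflection in a plane followed by a translation in an empty or connected set (in particular, if
it meets each congruent copy of itself in such a set), then the body is the Minkowski sum of a
segment (possibly a point) and a ball of positive radius, and its surface is the boundary of that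
sum. -/
theorem result (K : Set (EuclideanSpace ℝ (Fin 3))) (hconv : Convex ℝ K) (hcomp : IsCompact K)
    (hint : (interior K).Nonempty)
    (hP : ∀ g : EuclideanSpace ℝ (Fin 3) → EuclideanSpace ℝ (Fin 3), Isometry g →
      (∃ e t : EuclideanSpace ℝ (Fin 3), ‖e‖ = 1 ∧ ∀ x, g x = x - (2 * inner ℝ x e) • e + t) →
      (frontier K ∩ g '' frontier K).Nonempty → IsConnected (frontier K ∩ g '' frontier K)) :
    ∃ (a b : EuclideanSpace ℝ (Fin 3)) (r : ℝ), 0 < r ∧
      K = segment ℝ a b + r • Metric.closedBall (0 : EuclideanSpace ℝ (Fin 3)) 1 ∧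
      frontier K =
        frontier (segment ℝ a b + r • Metric.closedBall (0 : EuclideanSpace ℝ (Fin 3)) 1) := by
  have main : Pool.Agent.Lib.MP_947c47_gt.Mirror.PropP K →
      ∃ (a b : EuclideanSpace ℝ (Fin 3)) (r : ℝ), 0 < r ∧
      K = segment ℝ a b + r • Metric.closedBall (0 : EuclideanSpace ℝ (Fin 3)) 1 ∧
      frontier K =
        frontier (segment ℝ a b + r • Metric.closedBall (0 : EuclideanSpace ℝ (Fin 3)) 1) := by
    intro hP
    obtain ⟨a, b, r, hr, hK⟩ := Pool.Agent.Lib.MP_947c47_gt.Mirror.sausage ⟨hconv, hcomp, hint⟩ hP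
    have hS : IsCompact (segment ℝ a b) := by
      rw [segment_eq_image]
      exact isCompact_Icc.image (by fun_prop)
    have e : K = segment ℝ a b + r • Metric.closedBall (0 : EuclideanSpace ℝ (Fin 3)) 1 := by
      rw [hK, smul_unitClosedBall_of_nonneg hr.le]
      ext x
      constructor
      · intro hx
        obtain ⟨y, hy, hxy⟩ := hS.exists_infDist_eq_dist ⟨a, left_mem_segment ℝ a b⟩ x
        refine ⟨y, hy, x - y, ?_, add_sub_cancel y x⟩
        rw [mem_closedBall_zero_iff, ← dist_eq_norm, ← hxy]
        exact hx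
      · rintro ⟨y, hy, z, hz, rfl⟩
        refine le_trans (Metric.infDist_le_dist_of_mem hy) ?_
        rw [dist_eq_norm, add_sub_cancel_left]
        exact mem_closedBall_zero_iff.1 hz
    exact ⟨a, b, r, hr, e, congrArg frontier e⟩
  have pre : ∀ s : Set (EuclideanSpace ℝ (Fin 3)), (s.Nonempty → IsConnected s) →
      IsPreconnected s := fun s h => by
    rcases s.eq_empty_or_nonempty with rfl | n
    · exact isPreconnected_empty
    · exact (h n).isPreconnected
  refine main fun e t he => pre _ (hP _ ((isometry_add_right t).comp (ℝ ∙ e)ᗮ.reflection.isometry)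
    ⟨‖e‖⁻¹ • e, t, norm_smul_inv_norm he, fun x => ?_⟩)
  have s : (ℝ ∙ e) = ℝ ∙ (‖e‖⁻¹ • e) := (Submodule.span_singleton_smul_eq
    (inv_ne_zero (norm_ne_zero_iff.2 he)).isUnit e).symm
  have n : ‖‖e‖⁻¹ • e‖ = 1 := norm_smul_inv_norm he
  rw [← Pool.Agent.Lib.MP_947c47_gt.Mirror.rf_apply n x]
  simp only [Pool.Agent.Lib.MP_947c47_gt.Mirror.rf, ← s]

end Pool.Agent.Results.MP_947c47_gt.Mirror
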